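import Pool.Agent.W5h68.PJ.SysDefs
import Pool.Agent.W5h68.SP.CycDefs

/-!
# Effective motives with compact supports: definitions
-/

set_option autoImplicit false

open CategoryTheory Limits MonoidalCategory Pretriangulated AlgebraicGeometry MvPolynomial
  Pool.Agent.Y116.UV Pool.Agent.W5h68.SP Pool.Agent.W5h68.PJ

universe v u

namespace Pool.Agent.W5h68.HC

section

variable {C : Type u} [Category.{v} C] [MonoidalCategory C]

/-- The tensor powers `L ^ m`. -/
def tp (L : C) : ℕ → C
  | 0 => 𝟙_ C
  | m + 1 => tp L m ⊗ L

/-- The object `X` is divisible by `L ^ m`: it is of the form `N ⊗ L ^ m`. -/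
def Dv (L : C) (m : ℕ) (X : C) : Prop :=
  ∃ N : C, Nonempty (X ≅ N ⊗ tp L m)

end

/-- There is a distinguished triangle `X ⟶ Y ⟶ Z ⟶ X⟦1⟧`. -/
def Tri {C : Type u} [Category.{v} C] [Preadditive C] [HasZeroObject C] [HasShift C ℤ]
    [∀ n : ℤ, (shiftFunctor C n).Additive] [Pretriangulated C] (X Y Z : C) : Prop :=
  ∃ (a : X ⟶ Y) (b : Y ⟶ Z) (d : Z ⟶ X⟦(1 : ℤ)⟧), Triangle.mk a b d ∈ distTriang C

variable {k : Type} [Field k] {C : Type u} [Category.{v} C] [MonoidalCategory C]
  [SymmetricCategory C] [Preadditive C] [HasZeroObject C] [HasShift C ℤ]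
  [∀ n : ℤ, (shiftFunctor C n).Additive] [Pretriangulated C]

/-- Properties of Voevodsky's category `C` of effective geometric motives over `k` with rational
coefficients and the Lefschetz object `L = ℚ(1)[2]`: the objects which are divisible by `L ^ m` are stable
under cones, shifts and direct summands (all this follows from Voevodsky's cancellation theorem),
there are no nonzero morphisms `N ⊗ L ^ m ⟶ L ^ i` for `i < m`, and none from the unit object to `L ^ i`
for `i > 0`. -/
structure IsEffective (L : C) : Prop where
  cone : ∀ (m : ℕ) (X Y Z : C), Tri X Y Z → Dv L m X → Dv L m Y → Dv L m Z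
  shift : ∀ (m : ℕ) (X : C) (n : ℤ), Dv L m X → Dv L m (X⟦n⟧)
  retract : ∀ (m : ℕ) (X Y : C) (s : X ⟶ Y) (r : Y ⟶ X), s ≫ r = 𝟙 X → Dv L m Y → Dv L m X
  vanish : ∀ (N : C) (m i : ℕ), i < m → ∀ φ : N ⊗ tp L m ⟶ tp L i, φ = 0
  unit : ∀ (i : ℕ) (φ : 𝟙_ C ⟶ tp L (i + 1)), φ = 0

/-- Properties of the motives with compact supports `Mc X` of separated schemes `X` of finite type over
`k`, all true in Voevodsky's category (`k` perfect, rational coefficients; Voevodsky, Kelly):

* `localization`: the triangles of closed-open decompositions,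
* `kunneth`: products,
* `covering`: for the finite flat coverings `Spec A[s] / (s ^ d - u) → Spec A` of degree `d > 0`, `u` a
  unit, the motive of the base is a direct summand of the motive of the covering,
* `point`, `line`: the motives of the point and of the affine line,
* `cone`: let `S` be a set of forms of positive degrees, `X` a closed subscheme of the projective space
  with the support `S = 0` and `Z` the affine cone `S = 0`. The projective cone (its motive is `D`)
  is the union of the closed subscheme `X` at infinity and of the open subscheme `Z`, and it is the union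
  of its vertex and of a line bundle over `X`, with the motive `Mc X ⊗ L`. -/
structure IsCompact (L : C) (Mc : Sch k → C) : Prop where
  iso : ∀ {X Y : Sch k}, FT True X → Nonempty (X ≅ Y) → Nonempty (Mc X ≅ Mc Y)
  localization : ∀ {Z X U : Sch k} (i : Z ⟶ X) (j : U ⟶ X), FT True X → IsTriple i j →
    Tri (Mc Z) (Mc X) (Mc U)
  kunneth : ∀ (A B : Type) [CommRing A] [Algebra k A] [Algebra.FiniteType k A] [CommRing B]
    [Algebra k B] [Algebra.FiniteType k B],
    Nonempty (Mc (aff k (TensorProduct k A B)) ≅ Mc (aff k A) ⊗ Mc (aff k B))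
  covering : ∀ (A : Type) [CommRing A] [Algebra k A] [Algebra.FiniteType k A] (d : ℕ) (u : A),
    0 < d → IsUnit u → ∃ (s : Mc (aff k A) ⟶ Mc (aff k (Cyc A d u)))
      (r : Mc (aff k (Cyc A d u)) ⟶ Mc (aff k A)), s ≫ r = 𝟙 _
  point : Nonempty (Mc (aff k k) ≅ 𝟙_ C)
  line : Nonempty (Mc (aff k (Polynomial k)) ≅ L)
  cone : ∀ (σ : Type) [Finite σ] (S : Set (MvPolynomial σ k)),
    (∀ g ∈ S, ∃ m, 0 < m ∧ g.IsHomogeneous m) → ∀ (X : Sch k) (i : X ⟶ space k σ), FT True X →
    Supp S i → ∃ D : C, Tri (Mc X) D (Mc (aff k (MvPolynomial σ k ⧸ Ideal.span S))) ∧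
      Tri (𝟙_ C) D (Mc X ⊗ L)

/-- The cancellation theorem for morphisms to the powers of `L`, with rational coefficients. -/
def Cancel [Linear ℚ C] (L : C) : Prop :=
  ∀ (N : C) (i : ℕ), Nonempty ((N ⊗ L ⟶ tp L (i + 1)) ≃ₗ[ℚ] (N ⟶ tp L i))

/-- The motives with compact supports of the affine schemes `f = 0` and `f = 1` are divisible by
`L ^ c`. -/
structure Block (L : C) (Mc : Sch k → C) {σ : Type} (f : MvPolynomial σ k) (c : ℕ) : Prop where
  zero : Dv L c (Mc (aff k (MvPolynomial σ k ⧸ Ideal.span {f})))
  one : Dv L c (Mc (aff k (MvPolynomial σ k ⧸ Ideal.span {f - 1})))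

/-- The form `f` is smooth: its partial derivatives have no common zeros outside of the origin (over any
field). -/
def SmoothForm {σ : Type} (f : MvPolynomial σ k) : Prop :=
  ∀ i, ∃ m : ℕ, (X i : MvPolynomial σ k) ^ m ∈ Ideal.span (Set.range fun j => pderiv j f)

/-- For the smooth forms `f` of degree `d > 0` in more than `d` variables, the motives with compact
supports of the affine schemes `f = 0` and `f = 1` are divisible by `L`. This is known in characteristic
zero: by Roitman's theorem all zero-cycles of degree zero on the smooth Fano hypersurfaces `f = 0` and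
`f = s ^ d` of projective spaces are torsion, and by Bloch and Srinivas the cones of the morphisms from
their motives to the unit object are divisible by `L`; `f = 1` is the complement of the first in the
second, and `f = 0` is the complement of the first in its projective cone. -/
def Roitman (L : C) (Mc : Sch k → C) : Prop :=
  ∀ (σ : Type) [Finite σ] (f : MvPolynomial σ k) (d : ℕ), 0 < d → d < Nat.card σ →
    f.IsHomogeneous d → SmoothForm f → Block L Mc f 1

/-- The ranks of the groups `A^j(X)`, the groups of morphisms from the motive of `X` to `L ^ j`, are for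
all `j < m` at most the rank of `A^0(X)`. (For smooth projective `X` these are the Chow groups with
rational coefficients; if `X` is connected, then `A^0(X)` has rank one.) -/
def RankLe [Linear ℚ C] (L : C) (Mc : Sch k → C) (m : ℕ) (X : Sch k) : Prop :=
  ∀ j < m, Module.rank ℚ (Mc X ⟶ tp L j) ≤ Module.rank ℚ (Mc X ⟶ tp L 0)

end Pool.Agent.W5h68.HC
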