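import Pool.Agent.W5h68.SP.Fm2

/-!
# Divisibility classes of affine schemes and tuples of semi-invariant polynomials
-/

set_option autoImplicit false

open MvPolynomial TensorProduct Pool.Agent.W5h68.SP

namespace Pool.Agent.W5h68.HC

/-- The property `Q` of algebras of finite type over `k` is invariant under isomorphisms, holds for `X`
if it holds for `{f = 0}` and `{f ≠ 0}`, descends along the coverings `s ^ d = u` for units `u`, and is
inherited by products with arbitrary affine schemes. -/
structure ClI (k : Type) [Field k] (Q : (A : Type) → [CommRing A] → [Algebra k A] → Prop) :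
    Prop where
  iso : ∀ {A B : Type} [CommRing A] [Algebra k A] [CommRing B] [Algebra k B]
    [Algebra.FiniteType k A], (A ≃ₐ[k] B) → Q A → Q B
  total : ∀ {A : Type} [CommRing A] [Algebra k A] [Algebra.FiniteType k A] (f : A),
    Q (A ⧸ Ideal.span {f}) → Q (Localization.Away f) → Q A
  cyc : ∀ {A : Type} [CommRing A] [Algebra k A] [Algebra.FiniteType k A] (d : ℕ) (u : A), 0 < d →
    IsUnit u → Q (Cyc A d u) → Q A
  ideal : ∀ {A B : Type} [CommRing A] [Algebra k A] [Algebra.FiniteType k A] [CommRing B]
    [Algebra k B] [Algebra.FiniteType k B], Q B → Q (A ⊗[k] B)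

section

variable {k : Type} [Field k] {Q : (A : Type) → [CommRing A] → [Algebra k A] → Prop}
  {σ ι : Type} {f : ι → MvPolynomial σ k} {d : ι → ℕ}

variable (hQ : ClI k Q) (hF : Fib Q f) (hM : Multi f d)

include hQ hF in
lemma i_const [Finite σ] {B : Type} [CommRing B] [Algebra k B] [Algebra.FiniteType k B]
    (b : ι → B) (hb : ∀ i, b i = 0 ∨ b i = 1) : Q (Ev f B b) := by
  classical
  have h1 : ∀ i, ∃ c : k, (c = 0 ∨ c = 1) ∧ b i = algebraMap k B c := by
    intro i
    rcases hb i with h | h
    · exact ⟨0, Or.inl rfl, by rw [h, map_zero]⟩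
    · exact ⟨1, Or.inr rfl, by rw [h, map_one]⟩
  choose c hc hbc using h1
  have h2 : b = fun i => algebraMap k B (c i) := funext hbc
  subst h2
  obtain ⟨e⟩ := ev_prod (f := f) (B := B) c
  have hft : Algebra.FiniteType k (B ⊗[k] (MvPolynomial σ k ⧸
      Ideal.span (Set.range fun i => f i - C (c i)))) :=
    Algebra.FiniteType.trans (S := B) inferInstance inferInstance
  exact hQ.iso e.symm (hQ.ideal (hF c hc))

include hQ hF hM in
lemma i_twist [Finite σ] {B : Type} [CommRing B] [Algebra k B] [Algebra.FiniteType k B]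
    (s : Finset ι) : ∀ b : ι → B, (∀ i ∉ s, b i = 0 ∨ b i = 1) →
      (∀ i ∈ s, b i = 0 ∨ ∃ u : Bˣ, b i = (u : B) ^ d i) → Q (Ev f B b) := by
  classical
  induction s using Finset.induction_on with
  | empty => exact fun b hb _ => i_const hQ hF b (fun i => hb i (Finset.notMem_empty i))
  | insert i₀ s hi₀ ih =>
    intro b hb hb'
    rcases hb' i₀ (Finset.mem_insert_self _ _) with h | ⟨u, hu⟩
    · refine ih b (fun i hi => ?_) (fun i hi => hb' i (Finset.mem_insert_of_mem hi))
      by_cases h1 : i = i₀
      · rw [h1]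
        exact Or.inl h
      · exact hb i (by rw [Finset.mem_insert]; tauto)
    · obtain ⟨e⟩ := ev_twist hM i₀ u hu
      have h3 : ∀ b' : ι → B, b' i₀ = 1 → (∀ i, i ≠ i₀ → b' i = b i) → Q (Ev f B b') := by
        intro b' h4 h5
        refine ih _ (fun i hi => ?_) (fun i hi => ?_)
        · by_cases h1 : i = i₀
          · rw [h1, h4]
            exact Or.inr rfl
          · rw [h5 i h1]
            exact hb i (by rw [Finset.mem_insert]; tauto)
        · have h1 : i ≠ i₀ := fun h => hi₀ (h ▸ hi)
          rw [h5 i h1]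
          exact hb' i (Finset.mem_insert_of_mem hi)
      exact hQ.iso e.symm (h3 _ (Function.update_self _ _ _)
        (fun i hi => Function.update_of_ne hi _ _))

include hQ hF hM in
/-- The inverse image of a closed subscheme under a tuple of semi-invariant polynomials. -/
theorem i_main [Finite σ] [Finite ι] (hd : ∀ i, 0 < d i) (l : List ι) :
    ∀ (B : Type) [CommRing B] [Algebra k B] [Algebra.FiniteType k B] (b : ι → B),
      (∀ i ∉ l, b i = 0 ∨ ∃ u : Bˣ, b i = (u : B) ^ d i) → Q (Ev f B b) := by
  induction l with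
  | nil =>
    intro B _ _ _ b hb
    have := Fintype.ofFinite ι
    exact i_twist hQ hF hM Finset.univ b (fun i hi => absurd (Finset.mem_univ i) hi)
      (fun i _ => hb i List.not_mem_nil)
  | cons i l ih =>
    intro B _ _ _ b hb
    refine hQ.total (evB f b (b i)) ?_ ?_
    · obtain ⟨e⟩ := ev_quot (f := f) (b := b) (b i)
      refine hQ.iso e (ih _ _ (fun j hj => ?_))
      by_cases h1 : j = i
      · left
        rw [h1]
        exact Ideal.Quotient.eq_zero_iff_mem.mpr (Ideal.mem_span_singleton_self _)
      · rcases hb j (by rw [List.mem_cons]; tauto) with h2 | ⟨u, h2⟩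
        · left
          rw [h2, map_zero]
        · right
          refine ⟨Units.map (Ideal.Quotient.mk (Ideal.span {b i}) : B →* _) u, ?_⟩
          rw [h2, map_pow]
          rfl
    · obtain ⟨e⟩ := ev_away (f := f) (b := b) (b i)
      have hft : Algebra.FiniteType k (Localization.Away (b i)) :=
        Algebra.FiniteType.trans (S := B) inferInstance inferInstance
      refine hQ.iso e ?_
      have hu : IsUnit (algebraMap B (Localization.Away (b i)) (b i)) :=
        IsLocalization.Away.algebraMap_isUnit _
      obtain ⟨e2⟩ := ev_cyc (f := f) (b := fun j => algebraMap B (Localization.Away (b i)) (b j))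
        (d i) (algebraMap B (Localization.Away (b i)) (b i))
      refine hQ.cyc (d i) _ (hd i) (hu.map (evB f fun j => algebraMap B (Localization.Away (b i)) (b j)))
        (hQ.iso e2 (ih _ _ (fun j hj => ?_)))
      by_cases h1 : j = i
      · right
        subst h1
        have h2 : IsUnit (cycs (d j) (algebraMap B (Localization.Away (b j)) (b j))) := by
          have h3 : IsUnit (cycs (d j) (algebraMap B (Localization.Away (b j)) (b j)) ^ d j) := by
            rw [cyc_rel (k := k)]
            exact hu.map (cycA (k := k) (d j) (algebraMap B (Localization.Away (b j)) (b j)))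
          exact (isUnit_pow_iff (hd j).ne').mp h3
        exact ⟨h2.unit, (cyc_rel (k := k) (d j) _).symm⟩
      · rcases hb j (by rw [List.mem_cons]; tauto) with h2 | ⟨u, h2⟩
        · left
          rw [h2, map_zero, map_zero]
        · right
          refine ⟨Units.map ((cycA (k := k) (d i) (algebraMap B (Localization.Away (b i)) (b i))) :
            _ →* _) (Units.map ((algebraMap B (Localization.Away (b i))) :
              B →* Localization.Away (b i)) u), ?_⟩
          rw [h2, map_pow, map_pow]
          rfl

include hQ hF hM in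
/-- Inverse images of closed subschemes. -/
theorem i_inverse [Finite σ] [Finite ι] (hd : ∀ i, 0 < d i) (S : Set (MvPolynomial ι k)) :
    Q (MvPolynomial σ k ⧸ Ideal.span (aeval f '' S)) := by
  have := Fintype.ofFinite ι
  obtain ⟨e⟩ := ev_comp f S
  exact hQ.iso e (i_main hQ hF hM hd Finset.univ.toList _ _
    (fun i hi => absurd (Finset.mem_toList.mpr (Finset.mem_univ i)) hi))

end

section graded

variable {k : Type} [Field k] {Q : ℕ → (A : Type) → [CommRing A] → [Algebra k A] → Prop}

/-- The classes `Q m`, `m = 0, 1, …` are multiplicative. -/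
structure ClG (k : Type) [Field k] (Q : ℕ → (A : Type) → [CommRing A] → [Algebra k A] → Prop) :
    Prop where
  cl : ∀ m, ClI k (Q m)
  zero : ∀ (A : Type) [CommRing A] [Algebra k A] [Algebra.FiniteType k A], Q 0 A
  mul : ∀ {a b : ℕ} {A B : Type} [CommRing A] [Algebra k A] [Algebra.FiniteType k A] [CommRing B]
    [Algebra k B] [Algebra.FiniteType k B], Q a A → Q b B → Q (a + b) (A ⊗[k] B)

variable (hQ : ClG k Q)

include hQ in
/-- the fibres of a tuple -/
lemma gfib_tup : ∀ {r : ℕ} (σ : Fin r → Type) (_ : ∀ i, Finite (σ i))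
    (f : ∀ i, MvPolynomial (σ i) k) (c : Fin r → ℕ),
    (∀ i, Fib (Q (c i)) (fun _ : Unit => f i)) → Fib (Q (∑ i, c i)) (tup f) := by
  intro r
  induction r with
  | zero =>
    intro σ _ f c _ e he
    have h2 : Q 0 (MvPolynomial (Σ i, σ i) k ⧸
        Ideal.span (Set.range fun i => tup f i - C (e i))) := hQ.zero _
    rwa [Finset.univ_eq_empty, Finset.sum_empty]
  | succ r ih =>
    intro σ hσ f c hf e he
    obtain ⟨φ⟩ := fam_succ σ f e
    have h1 := ih (fun i => σ i.succ) (fun i => hσ i.succ) (fun i => f i.succ)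
      (fun i => c i.succ) (fun i => hf i.succ) (fun i => e i.succ) (fun i => he i.succ)
    obtain ⟨ψ⟩ := ev_prod (f := fun _ : Unit => f 0)
      (B := MvPolynomial (Σ i : Fin r, σ i.succ) k ⧸
        Ideal.span (Set.range fun i => tup (fun i : Fin r => f i.succ) i - C (e i.succ)))
      (fun _ => e 0)
    have h2 := hf 0 (fun _ => e 0) (fun _ => he 0)
    have h3 := hQ.mul h1 h2
    have hft : Algebra.FiniteType k ((MvPolynomial (Σ i : Fin r, σ i.succ) k ⧸
        Ideal.span (Set.range fun i => tup (fun i : Fin r => f i.succ) i - C (e i.succ))) ⊗[k]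
        (MvPolynomial (σ 0) k ⧸ Ideal.span (Set.range fun _ : Unit => f 0 - C (e 0)))) :=
      Algebra.FiniteType.trans (S := (MvPolynomial (Σ i : Fin r, σ i.succ) k ⧸
        Ideal.span (Set.range fun i => tup (fun i : Fin r => f i.succ) i - C (e i.succ))))
        inferInstance inferInstance
    have h4 : ∑ i, c i = (∑ i : Fin r, c i.succ) + c 0 := by
      rw [Fin.sum_univ_succ, add_comm]
    rw [h4]
    have h5 := (hQ.cl _).iso ψ.symm h3
    have hft2 : Algebra.FiniteType k (Ev (fun _ : Unit => f 0)
        (MvPolynomial (Σ i : Fin r, σ i.succ) k ⧸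
        Ideal.span (Set.range fun i => tup (fun i : Fin r => f i.succ) i - C (e i.succ)))
        (fun _ => algebraMap k _ (e 0))) := Algebra.FiniteType.equiv hft ψ.symm
    exact (hQ.cl _).iso φ h5

/-- homogeneous polynomials are semi-invariant -/
lemma semi_hom {σ : Type} {f : MvPolynomial σ k} {d : ℕ} (hf : f.IsHomogeneous d) :
    Semi f d := by
  intro B _ _ s
  let F : MvPolynomial σ B →ₐ[B] MvPolynomial σ B := aeval fun v => C (s : B) * X v
  let G : MvPolynomial σ B →ₐ[B] MvPolynomial σ B :=
    aeval fun v => C ((s⁻¹ : Bˣ) : B) * X v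
  have hFC : ∀ a : B, F (C a) = C a := fun a => F.commutes a
  have hGC : ∀ a : B, G (C a) = C a := fun a => G.commutes a
  refine ⟨AlgEquiv.ofAlgHom F G ?_ ?_, ?_⟩
  · apply MvPolynomial.algHom_ext
    intro v
    change F (G (X v)) = X v
    change F (aeval (fun v => C ((s⁻¹ : Bˣ) : B) * X v) (X v)) = X v
    rw [aeval_X, map_mul, hFC]
    change _ * aeval (fun v => C (s : B) * X v) (X v) = X v
    rw [aeval_X, ← mul_assoc, ← C_mul, s.inv_mul, C_1, one_mul]
  · apply MvPolynomial.algHom_ext
    intro v
    change G (F (X v)) = X v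
    change G (aeval (fun v => C (s : B) * X v) (X v)) = X v
    rw [aeval_X, map_mul, hGC]
    change _ * aeval (fun v => C ((s⁻¹ : Bˣ) : B) * X v) (X v) = X v
    rw [aeval_X, ← mul_assoc, ← C_mul, s.mul_inv, C_1, one_mul]
  · change F (MvPolynomial.map (algebraMap k B) f) = _
    have h1 : F (MvPolynomial.map (algebraMap k B) f) =
        aeval (fun v => (C (s : B) * X v : MvPolynomial σ B)) f := by
      change aeval _ (MvPolynomial.map (algebraMap k B) f) = _
      rw [aeval_map_algebraMap]
    rw [h1]
    have h2 := aeval_hom hf (C (s : B)) (fun v => (X v : MvPolynomial σ B))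
    rw [h2, ← map_pow]
    have h3 : aeval (fun v => (X v : MvPolynomial σ B)) f =
        MvPolynomial.map (algebraMap k B) f := by
      rw [← aeval_map_algebraMap (A := B)]
      exact aeval_X_left_apply _
    rw [h3, zpow_natCast, Units.val_pow_eq_pow_val]

include hQ in
/-- **Systems of equations between polynomials in disjoint sets of variables.** -/
theorem g_systems {r : ℕ} (σ : Fin r → Type) [∀ i, Finite (σ i)] (f : ∀ i, MvPolynomial (σ i) k)
    (w : Fin r → ℕ) (hw : ∀ i, 0 < w i) (hf : ∀ i, (f i).IsHomogeneous (w i)) (c : Fin r → ℕ)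
    (h0 : ∀ i, Q (c i) (MvPolynomial (σ i) k ⧸ Ideal.span {f i}))
    (h1 : ∀ i, Q (c i) (MvPolynomial (σ i) k ⧸ Ideal.span {f i - 1}))
    (S : Set (MvPolynomial (Fin r) k)) :
    Q (∑ i, c i) (MvPolynomial (Σ i, σ i) k ⧸
      Ideal.span ((aeval fun i => rename (Sigma.mk i) (f i)) '' S)) := by
  have hfib : ∀ i, Fib (Q (c i)) (fun _ : Unit => f i) := by
    intro i e he
    have h2 : (Set.range fun _ : Unit => f i - C (e ())) = {f i - C (e ())} := by
      rw [Set.range_const]
    have h3 : (Set.range fun j : Unit => f i - C (e j)) = {f i - C (e ())} := by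
      rw [← h2]
    rcases he () with h | h
    · have h4 : Ideal.span (Set.range fun j : Unit => f i - C (e j)) = Ideal.span {f i} := by
        rw [h3, h, C_0, sub_zero]
      exact ((hQ.cl _).iso (Ideal.quotientEquivAlgOfEq k h4.symm) (h0 i))
    · have h4 : Ideal.span (Set.range fun j : Unit => f i - C (e j)) = Ideal.span {f i - 1} := by
        rw [h3, h, C_1]
      exact ((hQ.cl _).iso (Ideal.quotientEquivAlgOfEq k h4.symm) (h1 i))
  exact i_inverse (hQ.cl _) (gfib_tup hQ σ inferInstance f c hfib)
    (multi_tup (d := w) fun i => semi_hom (hf i)) hw S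

end graded

end Pool.Agent.W5h68.HC
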