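import Pool.Agent.W5h68.HC.Gr
import Pool.Agent.W5h68.HC.Defs
import Pool.Agent.W5h68.PJ.Forms

/-!
# Divisibility of motives with compact supports by Lefschetz objects
-/

set_option autoImplicit false
set_option linter.unusedSectionVars false

open CategoryTheory Limits MonoidalCategory Pretriangulated AlgebraicGeometry MvPolynomial
  TensorProduct Pool.Agent.Y116.UV Pool.Agent.W5h68.SP Pool.Agent.W5h68.PJ

universe v u

namespace Pool.Agent.W5h68.HC

section dv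

variable {C : Type u} [Category.{v} C] [MonoidalCategory C] {L : C}

lemma dv_iso {m : ℕ} {X Y : C} (e : X ≅ Y) (h : Dv L m X) : Dv L m Y := by
  obtain ⟨N, ⟨f⟩⟩ := h
  exact ⟨N, ⟨e.symm ≪≫ f⟩⟩

lemma dv_zero (X : C) : Dv L 0 X := ⟨X, ⟨(ρ_ X).symm⟩⟩

/-- powers -/
lemma tp_add (a b : ℕ) : Nonempty (tp L a ⊗ tp L b ≅ tp L (a + b)) := by
  induction b with
  | zero => exact ⟨ρ_ _⟩
  | succ b ih =>
    obtain ⟨e⟩ := ih
    exact ⟨(α_ (tp L a) (tp L b) L).symm ≪≫ whiskerRightIso e L⟩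

variable [SymmetricCategory C]

lemma dv_tensor {a b : ℕ} {X Y : C} (hX : Dv L a X) (hY : Dv L b Y) : Dv L (a + b) (X ⊗ Y) := by
  obtain ⟨N, ⟨e⟩⟩ := hX
  obtain ⟨M, ⟨f⟩⟩ := hY
  obtain ⟨g⟩ := tp_add (L := L) a b
  have h : (N ⊗ tp L a) ⊗ (M ⊗ tp L b) ≅ (N ⊗ M) ⊗ (tp L a ⊗ tp L b) :=
    { hom := tensorμ N (tp L a) M (tp L b)
      inv := tensorδ N (tp L a) M (tp L b)
      hom_inv_id := tensorμ_tensorδ _ _ _ _
      inv_hom_id := tensorδ_tensorμ _ _ _ _ }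
  exact ⟨N ⊗ M, ⟨(e ⊗ᵢ f) ≪≫ h ≪≫ whiskerLeftIso (N ⊗ M) g⟩⟩

end dv

section tri

variable {C : Type u} [Category.{v} C] [MonoidalCategory C]
  [SymmetricCategory C] [Preadditive C] [HasZeroObject C] [HasShift C ℤ]
  [∀ n : ℤ, (shiftFunctor C n).Additive] [Pretriangulated C] {L : C}

lemma tri_rot {X Y Z : C} (h : Tri X Y Z) : Tri Y Z (X⟦(1 : ℤ)⟧) := by
  obtain ⟨a, b, d, h⟩ := h
  exact ⟨_, _, _, rot_of_distTriang _ h⟩

lemma tri_inv {X Y Z : C} (h : Tri X Y Z) : Tri (Z⟦(-1 : ℤ)⟧) X Y := by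
  obtain ⟨a, b, d, h⟩ := h
  exact ⟨_, _, _, inv_rot_of_distTriang _ h⟩

variable (hL : IsEffective L)

include hL in
lemma dv_mid {m : ℕ} {X Y Z : C} (h : Tri X Y Z) (hX : Dv L m X) (hZ : Dv L m Z) : Dv L m Y :=
  hL.cone m _ _ _ (tri_inv h) (hL.shift m Z (-1) hZ) hX

include hL in
lemma dv_hom {m i : ℕ} {X : C} (h : Dv L m X) (hi : i < m) (φ : X ⟶ tp L i) : φ = 0 := by
  obtain ⟨N, ⟨e⟩⟩ := h
  have h1 := hL.vanish N m i hi (e.inv ≫ φ)
  rw [← cancel_epi e.inv, h1, comp_zero]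

/-- extension of morphisms -/
lemma tri_ext {X Y Z W : C} (h : Tri X Y Z) (hZ : ∀ φ : Z⟦(-1 : ℤ)⟧ ⟶ W, φ = 0) :
    ∃ a : X ⟶ Y, ∀ φ : X ⟶ W, ∃ ψ : Y ⟶ W, a ≫ ψ = φ := by
  obtain ⟨a, b, d, h⟩ := h
  refine ⟨a, fun φ => ?_⟩
  obtain ⟨ψ, hψ⟩ := Triangle.yoneda_exact₂ _ (inv_rot_of_distTriang _ h) φ (hZ _)
  exact ⟨ψ, hψ.symm⟩

/-- factorization of morphisms -/
lemma tri_fac {X Y Z W : C} (h : Tri X Y Z) (hX : ∀ φ : X ⟶ W, φ = 0) :
    ∃ b : Y ⟶ Z, ∀ φ : Y ⟶ W, ∃ ψ : Z ⟶ W, b ≫ ψ = φ := by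
  obtain ⟨a, b, d, h⟩ := h
  refine ⟨b, fun φ => ?_⟩
  obtain ⟨ψ, hψ⟩ := Triangle.yoneda_exact₂ _ h φ (hX _)
  exact ⟨ψ, hψ.symm⟩

end tri

section motive

variable {k : Type} [Field k] {C : Type u} [Category.{v} C] [MonoidalCategory C]
  [SymmetricCategory C] [Preadditive C] [HasZeroObject C] [HasShift C ℤ]
  [∀ n : ℤ, (shiftFunctor C n).Additive] [Pretriangulated C] {L : C} {Mc : Sch k → C}
  (hL : IsEffective L) (hM : IsCompact L Mc)

include hL hM in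
lemma clG : ClG k fun m A => Dv L m (Mc (aff k A)) where
  cl m :=
    { iso := fun {A B} _ _ _ _ _ e h => by
        obtain ⟨f⟩ := hM.iso (ft_aff (R := k) (A := A) True) ⟨(affIso e).symm⟩
        exact dv_iso f h
      total := fun {A} _ _ _ f h1 h2 =>
        dv_mid hL (hM.localization _ _ (ft_aff True) (triple_away f)) h1 h2
      cyc := fun {A} _ _ _ d u hd hu h => by
        obtain ⟨s, r, hs⟩ := hM.covering A d u hd hu
        exact hL.retract m _ _ s r hs h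
      ideal := fun {A B} _ _ _ _ _ _ h => by
        obtain ⟨e⟩ := hM.kunneth A B
        have h1 := dv_tensor (dv_zero (L := L) (Mc (aff k A))) h
        rw [zero_add] at h1
        exact dv_iso e.symm h1 }
  zero A _ _ _ := dv_zero _
  mul {a b A B} _ _ _ _ _ _ h1 h2 := by
    obtain ⟨e⟩ := hM.kunneth A B
    exact dv_iso e.symm (dv_tensor h1 h2)

variable [Linear ℚ C]

include hL in
/-- the ranks of the groups of morphisms from the motive of a projective scheme -/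
lemma rank_step {m j : ℕ} (hj : j + 1 < m) {X D Z : C} (h1 : Tri X D Z) (h2 : Tri (𝟙_ C) D (X ⊗ L))
    (hZ : Dv L m Z) : Module.rank ℚ (X ⟶ tp L (j + 1)) ≤ Module.rank ℚ (X ⊗ L ⟶ tp L (j + 1)) := by
  obtain ⟨a, ha⟩ := tri_ext (W := tp L (j + 1)) h1
    (fun φ => dv_hom hL (hL.shift m Z (-1) hZ) hj φ)
  obtain ⟨b, hb⟩ := tri_fac (W := tp L (j + 1)) h2 (hL.unit j)
  have h3 : Module.rank ℚ (X ⟶ tp L (j + 1)) ≤ Module.rank ℚ (D ⟶ tp L (j + 1)) :=
    LinearMap.rank_le_of_surjective (Linear.leftComp ℚ (tp L (j + 1)) a) ha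
  have h4 : Module.rank ℚ (D ⟶ tp L (j + 1)) ≤ Module.rank ℚ (X ⊗ L ⟶ tp L (j + 1)) :=
    LinearMap.rank_le_of_surjective (Linear.leftComp ℚ (tp L (j + 1)) b) hb
  exact h3.trans h4

include hL in
lemma rank_main (hC : Cancel L) {m : ℕ} {X D Z : C} (h1 : Tri X D Z) (h2 : Tri (𝟙_ C) D (X ⊗ L))
    (hZ : Dv L m Z) : ∀ j < m, Module.rank ℚ (X ⟶ tp L j) ≤ Module.rank ℚ (X ⟶ tp L 0) := by
  intro j
  induction j with
  | zero => exact fun _ => le_rfl
  | succ j ih =>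
    intro hj
    obtain ⟨e⟩ := hC X j
    refine (rank_step hL hj h1 h2 hZ).trans ?_
    rw [e.rank_eq]
    exact ih (by omega)

/-- the composition of the forms is homogeneous -/
lemma hom_comp {r : ℕ} {σ : Fin r → Type} {f : ∀ i, MvPolynomial (σ i) k} {w : Fin r → ℕ}
    (hf : ∀ i, (f i).IsHomogeneous (w i)) {h : MvPolynomial (Fin r) k} {m : ℕ}
    (hh : IsWeightedHomogeneous w h m) :
    (aeval (fun i => rename (Sigma.mk i) (f i)) h).IsHomogeneous m := by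
  have h1 : ∀ i, IsWeightedHomogeneous (fun _ : Σ i, σ i => 1) (rename (Sigma.mk i) (f i))
      (w i) := by
    intro i
    exact (hf i).rename_isHomogeneous
  exact whom_aeval h1 hh

include hL hM in
/-- **Affine systems.** -/
theorem affine_main {r : ℕ} (σ : Fin r → Type) [∀ i, Finite (σ i)]
    (f : ∀ i, MvPolynomial (σ i) k) (w : Fin r → ℕ) (hw : ∀ i, 0 < w i)
    (hf : ∀ i, (f i).IsHomogeneous (w i)) (c : Fin r → ℕ) (hc : ∀ i, Block L Mc (f i) (c i))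
    (S : Set (MvPolynomial (Fin r) k)) :
    Dv L (∑ i, c i) (Mc (aff k (MvPolynomial (Σ i, σ i) k ⧸
      Ideal.span ((aeval fun i => rename (Sigma.mk i) (f i)) '' S)))) :=
  g_systems (clG hL hM) σ f w hw hf c (fun i => (hc i).zero) (fun i => (hc i).one) S

include hL hM in
/-- **Projective systems.** -/
theorem proj_main (hC : Cancel L) {r : ℕ} (σ : Fin r → Type) [∀ i, Finite (σ i)]
    (f : ∀ i, MvPolynomial (σ i) k) (w : Fin r → ℕ) (hw : ∀ i, 0 < w i)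
    (hf : ∀ i, (f i).IsHomogeneous (w i)) (c : Fin r → ℕ) (hc : ∀ i, Block L Mc (f i) (c i))
    (S : Set (MvPolynomial (Fin r) k)) (hS : ∀ h ∈ S, ∃ m, 0 < m ∧ IsWeightedHomogeneous w h m)
    (X : Sch k) (i : X ⟶ space k (Σ i, σ i)) (hX : FT True X)
    (hi : Supp ((aeval fun i => rename (Sigma.mk i) (f i)) '' S) i) :
    RankLe L Mc (∑ i, c i) X := by
  obtain ⟨D, h1, h2⟩ := hM.cone _ _ (by
    rintro _ ⟨h, hh, rfl⟩
    obtain ⟨m, hm, h3⟩ := hS h hh
    exact ⟨m, hm, hom_comp hf h3⟩) X i hX hi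
  exact rank_main hL hC h1 h2 (affine_main hL hM σ f w hw hf c hc S)

lemma block_zero {σ : Type} (f : MvPolynomial σ k) : Block L Mc f 0 := ⟨dv_zero _, dv_zero _⟩

include hL hM in
/-- **Smooth Fano blocks.** -/
theorem roitman_main (hC : Cancel L) (hR : Roitman L Mc) {r d : ℕ} (σ : Fin r → Type)
    [∀ i, Finite (σ i)] (f : ∀ i, MvPolynomial (σ i) k) (T : Finset (Fin r)) (hd : 0 < d)
    (hf : ∀ i, (f i).IsHomogeneous d) (hT : ∀ i ∈ T, SmoothForm (f i) ∧ d < Nat.card (σ i))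
    (S : Set (MvPolynomial (Fin r) k)) (hS : ∀ h ∈ S, ∃ m, 0 < m ∧ h.IsHomogeneous m)
    (X : Sch k) (i : X ⟶ space k (Σ i, σ i)) (hX : FT True X)
    (hi : Supp ((aeval fun i => rename (Sigma.mk i) (f i)) '' S) i) : RankLe L Mc T.card X := by
  classical
  have h1 := proj_main hL hM hC σ f (fun _ => d) (fun _ => hd) hf (fun i => if i ∈ T then 1 else 0)
    (fun i => by
      by_cases h : i ∈ T
      · rw [if_pos h]
        exact hR (σ i) (f i) d hd (hT i h).2 (hf i) (hT i h).1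
      · rw [if_neg h]
        exact block_zero _) S (fun h hh => by
          obtain ⟨m, hm, h2⟩ := hS h hh
          refine ⟨d * m, Nat.mul_pos hd hm, ?_⟩
          intro s hs
          have h3 := h2 hs
          rw [Finsupp.weight_apply, Finsupp.sum] at h3 ⊢
          rw [← h3, Finset.mul_sum]
          refine Finset.sum_congr rfl fun j _ => ?_
          rw [smul_eq_mul, Pi.one_apply, smul_eq_mul, mul_one, mul_comm]) X i hX hi
  have h2 : (∑ i, if i ∈ T then 1 else 0) = T.card := by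
    rw [Finset.sum_ite_mem, Finset.univ_inter, Finset.sum_const, smul_eq_mul, mul_one]
  rwa [h2] at h1

/-- the sum of the forms -/
lemma sum_image {r : ℕ} {σ : Fin r → Type} (f : ∀ i, MvPolynomial (σ i) k) :
    (aeval fun i => rename (Sigma.mk i) (f i)) '' {(∑ j, X j : MvPolynomial (Fin r) k)} =
      {(∑ i, rename (Sigma.mk i) (f i) : MvPolynomial (Σ i, σ i) k)} := by
  rw [Set.image_singleton, map_sum]
  congr 1
  exact Finset.sum_congr rfl fun j _ => aeval_X _ _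

lemma sum_hom {r : ℕ} : (∑ j, X j : MvPolynomial (Fin r) k).IsHomogeneous 1 :=
  IsHomogeneous.sum _ _ _ fun j _ => isHomogeneous_X k j

end motive

end Pool.Agent.W5h68.HC
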